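import Mathlib
import Pool.Agent.Helper62.Skein

set_option linter.unusedSimpArgs false

namespace Pool.Agent.Results.MP_118c6a_gt.NoThirdInvariant

open Pool.Agent.Helper62.Skein

/-- `P` satisfies the framing relation with factor `a` and the cubic skein relation with
coefficients `b0, b1, b2, b3`. -/
def SatisfiesRelations {K : Type*} [CommRing K] (a b0 b1 b2 b3 : K) (P : FramedLink → K) : Prop :=
  (∀ (A B : List (ℕ × Piece)) (k : ℕ) (h : width 0 (A ++ B) = some 0)
    (h' : width 0 (A ++ [(k + 1, .cup), (k, .pos), (k + 1, .cap)] ++ B) = some 0),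
    P (mkLink _ h') = a * P (mkLink _ h)) ∧
  (∀ (A B : List (ℕ × Piece)) (k : ℕ) (h0 : width 0 (A ++ B) = some 0)
    (h1 : width 0 (A ++ [(k, .pos)] ++ B) = some 0)
    (h2 : width 0 (A ++ [(k, .pos), (k, .pos)] ++ B) = some 0)
    (h3 : width 0 (A ++ [(k, .pos), (k, .pos), (k, .pos)] ++ B) = some 0),
    b0 * P (mkLink _ h0) + b1 * P (mkLink _ h1) + b2 * P (mkLink _ h2)
      + b3 * P (mkLink _ h3) = 0)

theorem functional {K : Type*} [CommRing K] (a b0 b3 : Kˣ) (b1 b2 : K) (P : FramedLink → K)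
    (hP : SatisfiesRelations (a : K) b0 b1 b2 b3 P) :
    relations K a b0 b3 b1 b2 0 ≤ LinearMap.ker (ext (R := K) P) := by
  apply relations_le_ker
  · intro A B n k hA hB hk
    have w1 : width n [(k, Piece.pos)] = some n := by
      have : n - 2 + 2 = n := by omega
      simp [width, Piece.low, Piece.high, hk, this]
    have w2 : width n [(k, Piece.pos), (k, Piece.pos)] = some n := by
      simp [width, Piece.low, Piece.high]; omega
    have w3 : width n [(k, Piece.pos), (k, Piece.pos), (k, Piece.pos)] = some n := by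
      simp [width, Piece.low, Piece.high]; omega
    have h0 : width 0 (A ++ B) = some 0 := by rw [width_append, hA]; simp [hB]
    have h1 := closed_of hA w1 hB
    have h2 := closed_of hA w2 hB
    have h3 := closed_of hA w3 hB
    rw [ext_link P h0, ext_link P h1, ext_link P h2, ext_link P h3, zero_smul, add_zero]
    exact hP.2 A B k h0 h1 h2 h3
  · intro A B n k hA hB hk
    have w1 : width n [(k + 1, Piece.cup), (k, Piece.pos), (k + 1, Piece.cap)] = some n := by
      simp [width, Piece.low, Piece.high]; omega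
    have h0 : width 0 (A ++ B) = some 0 := by rw [width_append, hA]; simp [hB]
    have h1 := closed_of hA w1 hB
    rw [ext_link P h0, ext_link P h1]
    exact hP.1 A B k h0 h1

/-- The determinant obtained by eliminating the two-component trivial link and the Hopf link from
three relations must vanish if the trivial knot has value `1`. -/
theorem det_eq_zero {K : Type*} [CommRing K] (a b0 b3 : Kˣ) (b1 b2 : K) (P : FramedLink → K)
    (hP : SatisfiesRelations (a : K) b0 b1 b2 b3 P)
    (h1 : P (mkLink [(0, .cup), (0, .cap)] rfl) = 1) :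
    ((b0 : K) + a ^ 2 * b2) *
        ((a * b2) * (a * (a * b0 ^ 2 * b2 + b1 * b3 ^ 2)) - (a * b0) * (a * (a * b0 ^ 3 + b3 ^ 3)))
      - (a * b1) * ((b1 + a ^ 2 * b3) * (a * (a * b0 ^ 2 * b2 + b1 * b3 ^ 2))
        - (a * b0) * (a ^ 2 * (a * b0 ^ 2 * b1 - a * b0 * b2 * b3) + (b2 * b3 ^ 2 - b0 * b1 * b3)))
      + (a * b3) * ((b1 + a ^ 2 * b3) * (a * (a * b0 ^ 3 + b3 ^ 3))
        - (a * b2) * (a ^ 2 * (a * b0 ^ 2 * b1 - a * b0 * b2 * b3) + (b2 * b3 ^ 2 - b0 * b1 * b3)))
      = 0 := by
  have hk := functional a b0 b3 b1 b2 P hP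
  have r1 := congrArg (lift a b0 b3 b1 b2 0 P hk) (hopf_rel1 a b0 b3 b1 b2 0)
  have r2 := congrArg (lift a b0 b3 b1 b2 0 P hk) (hopf_rel2 a b0 b3 b1 b2 0)
  have r3 := congrArg (lift a b0 b3 b1 b2 0 P hk) (new_rel_neg a b0 b3 b1 b2 0)
  simp only [map_add, map_smul, map_zero] at r1 r2 r3
  have e1 : lift a b0 b3 b1 b2 0 P hk (T1 a b0 b3 b1 b2 0) = 1 := by
    rw [T1, lift_c a b0 b3 b1 b2 0 P hk rfl]; exact h1
  rw [e1] at r1 r2 r3
  generalize lift a b0 b3 b1 b2 0 P hk (T2 a b0 b3 b1 b2 0) = t2 at r1 r2 r3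
  generalize lift a b0 b3 b1 b2 0 P hk (Hopf a b0 b3 b1 b2 0) = h at r1 r2 r3
  simp only [smul_eq_mul] at r1 r2 r3
  linear_combination
    ((a * b2) * (a * (a * b0 ^ 2 * b2 + b1 * b3 ^ 2)) - (a * b0) * (a * (a * b0 ^ 3 + b3 ^ 3)) : K)
      * r1
    - ((a * b1) * (a * (a * b0 ^ 2 * b2 + b1 * b3 ^ 2)) - (a * b3) * (a * (a * b0 ^ 3 + b3 ^ 3))
      : K) * r2
    + ((a * b1) * (a * b0) - (a * b3) * (a * b2) : K) * r3

/-- The field of rational functions in three variables `a, x, y` over the rationals. -/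
abbrev F : Type := FractionRing (MvPolynomial (Fin 3) ℤ)

/-- The three variables as elements of the field. -/
noncomputable def var (i : Fin 3) : F := algebraMap (MvPolynomial (Fin 3) ℤ) F (MvPolynomial.X i)

theorem result : ¬ ∃ P : FramedLink → F,
    P (mkLink [(0, .cup), (0, .cap)] rfl) = 1 ∧
    SatisfiesRelations (var 0) 1 (var 0 * var 1) (var 0 ^ 2 * var 2)
      (-(var 0 ^ 3 * (var 1 + var 2 + 1))) P := by
  rintro ⟨P, h1, hP⟩
  have inj : Function.Injective (algebraMap (MvPolynomial (Fin 3) ℤ) F) :=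
    IsFractionRing.injective _ _
  have ha : var 0 ≠ 0 := by
    intro h
    have : (MvPolynomial.X 0 : MvPolynomial (Fin 3) ℤ) = 0 := inj (by rw [map_zero]; exact h)
    exact MvPolynomial.X_ne_zero _ this
  have hs : (-(var 0 ^ 3 * (var 1 + var 2 + 1))) ≠ 0 := by
    intro h
    have : (-((MvPolynomial.X 0 : MvPolynomial (Fin 3) ℤ) ^ 3 *
        (MvPolynomial.X 1 + MvPolynomial.X 2 + 1))) = 0 := by
      apply inj
      simp only [map_neg, map_mul, map_pow, map_add, map_one, map_zero]
      exact h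
    have := congrArg (MvPolynomial.eval ![(1 : ℤ), 0, 0]) this
    simp at this
  have hd := det_eq_zero (Units.mk0 (var 0) ha) 1 (Units.mk0 _ hs) (var 0 * var 1)
    (var 0 ^ 2 * var 2) P (by simpa using hP) h1
  simp only [Units.val_mk0, Units.val_one] at hd
  unfold var at hd
  simp only [← map_mul, ← map_pow, ← map_add, ← map_sub, ← map_neg, ← map_one
    (algebraMap (MvPolynomial (Fin 3) ℤ) F)] at hd
  have := inj (hd.trans (map_zero _).symm)
  have := congrArg (MvPolynomial.eval ![(2 : ℤ), 0, 0]) this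
  simp at this

end Pool.Agent.Results.MP_118c6a_gt.NoThirdInvariant
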